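import Mathlib

/-!
# The minimum dissociativity dimension: the conjectured value for cyclic groups is wrong

For every `k ≥ 4` one has `dim(ℤ_n, n - 2) = k` for `n = 2 ^ k + 1`, whereas the conjectured value
is `⌊log₂ (n - 2)⌋ = k - 1`.
-/

namespace Pool.Agent.Results.MP_6c00f2_co.CyclicFails

open Finset

/-- `B` is dissociated: there is no relation `∑ ε_b b = 0` with all `ε_b ∈ {-1, 0, 1}` and not all
`ε_b` equal to `0`. -/
def Dissociated {G : Type*} [AddCommGroup G] (B : Finset G) : Prop :=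
  ∀ ε : G → ℤ, (∀ b ∈ B, ε b = -1 ∨ ε b = 0 ∨ ε b = 1) → ∑ b ∈ B, ε b • b = 0 →
    ∀ b ∈ B, ε b = 0

/-- `dim A`: the largest size of a dissociated subset of `A`. -/
noncomputable def dimA {G : Type*} [AddCommGroup G] (A : Finset G) : ℕ :=
  sSup {k | ∃ B : Finset G, B ⊆ A ∧ Dissociated B ∧ B.card = k}

/-- `dim(G, m)`: the smallest value of `dim A` over the `m`-element subsets `A` of `G`. -/
noncomputable def dim (G : Type*) [AddCommGroup G] (m : ℕ) : ℕ :=
  sInf {k | ∃ A : Finset G, A.card = m ∧ dimA A = k}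

/-- a dissociated set of size `k` needs `2 ^ k` group elements -/
theorem Dissociated.two_pow_le {G : Type*} [AddCommGroup G] [Fintype G] [DecidableEq G]
    {B : Finset G} (hB : Dissociated B) : 2 ^ B.card ≤ Fintype.card G := by
  have hinj : Set.InjOn (fun S : Finset G => ∑ b ∈ S, b) (B.powerset : Set (Finset G)) := by
    intro S hS T hT hST
    rw [mem_coe, mem_powerset] at hS hT
    simp only at hST
    have hrel := hB (fun b => (if b ∈ S then 1 else 0) - (if b ∈ T then 1 else 0)) (by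
      intro b _
      split_ifs <;> simp) (by
      have h1 : ∀ U : Finset G, U ⊆ B → ∑ b ∈ B, (if b ∈ U then (1 : ℤ) else 0) • b =
          ∑ b ∈ U, b := by
        intro U hU
        simp only [ite_smul, one_smul, zero_smul]
        rw [← sum_filter]
        congr 1
        ext x
        rw [mem_filter]
        exact ⟨fun h => h.2, fun h => ⟨hU h, h⟩⟩
      simp only [sub_smul]
      rw [sum_sub_distrib, h1 S hS, h1 T hT, hST, sub_self])
    ext b
    constructor
    · intro hb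
      have := hrel b (hS hb)
      simp only [hb, if_true] at this
      by_contra hbT
      rw [if_neg hbT] at this
      norm_num at this
    · intro hb
      have := hrel b (hT hb)
      simp only [hb, if_true] at this
      by_contra hbS
      rw [if_neg hbS] at this
      norm_num at this
  calc 2 ^ B.card = B.powerset.card := (card_powerset B).symm
    _ = (B.powerset.image (fun S : Finset G => ∑ b ∈ S, b)).card :=
        (card_image_of_injOn hinj).symm
    _ ≤ Fintype.card G := card_le_univ _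

/-- bound for signed binary sums -/
theorem abs_sum_lt (e : ℕ → ℤ) (k : ℕ) (he : ∀ i < k, e i = -1 ∨ e i = 0 ∨ e i = 1) :
    |∑ i ∈ range k, e i * 2 ^ i| ≤ 2 ^ k - 1 := by
  induction k with
  | zero => simp
  | succ k ih =>
    rw [sum_range_succ]
    have h1 := ih (fun i hi => he i (by omega))
    have h2 : |e k * 2 ^ k| ≤ 2 ^ k := by
      rcases he k (by omega) with h | h | h <;> rw [h] <;> simp
    calc _ ≤ |∑ i ∈ range k, e i * 2 ^ i| + |e k * 2 ^ k| := abs_add_le _ _
      _ ≤ 2 ^ (k + 1) - 1 := by rw [pow_succ]; linarith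

theorem sum_eq_zero' (e : ℕ → ℤ) (k : ℕ) (he : ∀ i < k, e i = -1 ∨ e i = 0 ∨ e i = 1)
    (h : ∑ i ∈ range k, e i * 2 ^ i = 0) : ∀ i < k, e i = 0 := by
  induction k with
  | zero => intro i hi; omega
  | succ k ih =>
    rw [sum_range_succ] at h
    have h1 := abs_sum_lt e k (fun i hi => he i (by omega))
    have hk : e k = 0 := by
      have h2 : |e k * 2 ^ k| ≤ 2 ^ k - 1 := by
        have : e k * 2 ^ k = -∑ i ∈ range k, e i * 2 ^ i := by linarith
        rw [this, abs_neg]; exact h1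
      rcases he k (by omega) with h3 | h3 | h3
      · rw [h3] at h2; simp at h2
      · exact h3
      · rw [h3] at h2; simp at h2
    rw [hk, zero_mul, add_zero] at h
    intro i hi
    rcases Nat.lt_succ_iff_lt_or_eq.1 hi with h2 | h2
    · exact ih (fun i hi => he i (by omega)) h i h2
    · rw [h2]; exact hk

/-- the set `{u, 2 u, …, 2 ^ (k - 1) u}` -/
def DU (k : ℕ) (u : ZMod (2 ^ k + 1)) : Finset (ZMod (2 ^ k + 1)) :=
  (range k).image (fun i => u * 2 ^ i)

theorem key_zero {k : ℕ} (e : ℕ → ℤ) (he : ∀ i < k, e i = -1 ∨ e i = 0 ∨ e i = 1)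
    {u : ZMod (2 ^ k + 1)} (hu : IsUnit u)
    (h : ∑ i ∈ range k, (e i : ZMod (2 ^ k + 1)) * (u * 2 ^ i) = 0) : ∀ i < k, e i = 0 := by
  apply sum_eq_zero' e k he
  have h1 : u * ((∑ i ∈ range k, e i * 2 ^ i : ℤ) : ZMod (2 ^ k + 1)) = 0 := by
    push_cast
    rw [← h, mul_sum]
    exact sum_congr rfl (fun i _ => by ring)
  have h2 := (hu.mul_right_eq_zero).1 h1
  rw [ZMod.intCast_zmod_eq_zero_iff_dvd] at h2
  have h3 := abs_sum_lt e k he
  apply Int.eq_zero_of_abs_lt_dvd h2
  push_cast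
  linarith

theorem DU_inj {k : ℕ} {u : ZMod (2 ^ k + 1)} (hu : IsUnit u) :
    Set.InjOn (fun i => u * 2 ^ i) (range k : Set ℕ) := by
  intro i hi j hj hij
  rw [mem_coe, mem_range] at hi hj
  simp only at hij
  by_contra hne
  have := key_zero (k := k) (fun l => (if l = i then 1 else 0) - (if l = j then 1 else 0)) (by
    intro l _
    split_ifs <;> simp) hu (by
    push_cast
    simp only [sub_mul, ite_mul, one_mul, zero_mul]
    rw [sum_sub_distrib, sum_ite_eq', sum_ite_eq', if_pos (mem_range.2 hi),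
      if_pos (mem_range.2 hj), hij, sub_self]) i hi
  simp [hne] at this

theorem DU_card {k : ℕ} {u : ZMod (2 ^ k + 1)} (hu : IsUnit u) : (DU k u).card = k := by
  rw [DU, card_image_of_injOn (DU_inj hu), card_range]

theorem DU_dissociated {k : ℕ} {u : ZMod (2 ^ k + 1)} (hu : IsUnit u) :
    Dissociated (DU k u) := by
  intro ε hε h0 b hb
  rw [DU, sum_image (DU_inj hu)] at h0
  rw [DU, mem_image] at hb
  obtain ⟨i, hi, rfl⟩ := hb
  refine key_zero (k := k) (fun i => ε (u * 2 ^ i)) ?_ hu ?_ i (mem_range.1 hi)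
  · intro j hj
    exact hε _ (by rw [DU, mem_image]; exact ⟨j, mem_range.2 hj, rfl⟩)
  · rw [← h0]
    exact sum_congr rfl (fun j _ => by rw [zsmul_eq_mul])

theorem two_pow_k (k : ℕ) : (2 : ZMod (2 ^ k + 1)) ^ k = -1 := by
  have h : (((2 ^ k + 1 : ℕ)) : ZMod (2 ^ k + 1)) = 0 := ZMod.natCast_self _
  push_cast at h
  linear_combination h

theorem two_unit {k : ℕ} (hk : 0 < k) : IsUnit (2 : ZMod (2 ^ k + 1)) := by
  have h1 : (2 : ZMod (2 ^ k + 1)) * (-2 ^ (k - 1)) = 1 := by
    have := two_pow_k k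
    have h3 : (2 : ZMod (2 ^ k + 1)) ^ k = 2 * 2 ^ (k - 1) := by
      rw [← pow_succ']; congr 1; omega
    rw [h3] at this
    linear_combination -this
  exact IsUnit.of_mul_eq_one _ h1

theorem two_pow_ne {k s U : ℕ} (hs : s < k) (hU : Odd U) (hU1 : 1 < U) (hUk : U ≤ 2 ^ (k - 1)) :
    (2 : ZMod (2 ^ k + 1)) ^ s ≠ (U : ZMod (2 ^ k + 1)) := by
  intro h
  have hk : 2 ^ k = 2 * 2 ^ (k - 1) := by rw [← pow_succ']; congr 1; omega
  have h1 : ((2 ^ s : ℕ) : ZMod (2 ^ k + 1)) = ((U : ℕ) : ZMod (2 ^ k + 1)) := by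
    push_cast; exact h
  have hs2 : 2 ^ s < 2 ^ k := Nat.pow_lt_pow_right (by norm_num) hs
  rw [ZMod.natCast_eq_natCast_iff', Nat.mod_eq_of_lt (by omega), Nat.mod_eq_of_lt (by omega)] at h1
  rcases Nat.eq_zero_or_pos s with h0 | h0
  · rw [h0] at h1; omega
  · have : Even (2 ^ s) := (Nat.even_pow' h0.ne').2 even_two
    rw [h1] at this
    exact (Nat.not_even_iff_odd.2 hU) this

theorem two_pow_add_ne {k s U : ℕ} (hs : s < k) (hUk : U ≤ 2 ^ (k - 1)) :
    (2 : ZMod (2 ^ k + 1)) ^ s + (U : ZMod (2 ^ k + 1)) ≠ 0 := by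
  intro h
  have hk : 2 ^ k = 2 * 2 ^ (k - 1) := by rw [← pow_succ']; congr 1; omega
  have h1 : ((2 ^ s + U : ℕ) : ZMod (2 ^ k + 1)) = 0 := by
    push_cast; exact h
  rw [ZMod.natCast_eq_zero_iff] at h1
  have hs2 : 2 ^ s ≤ 2 ^ (k - 1) := Nat.pow_le_pow_right (by norm_num) (by omega)
  have hs3 : 0 < 2 ^ s := by positivity
  have := Nat.le_of_dvd (by omega) h1
  omega

theorem disj_neg {k : ℕ} : Disjoint (DU k 1) (DU k (-1)) := by
  rw [disjoint_left]
  intro x hx hx'
  rw [DU, mem_image] at hx hx'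
  obtain ⟨i, hi, rfl⟩ := hx
  obtain ⟨j, hj, hij⟩ := hx'
  rw [mem_range] at hi hj
  refine two_pow_add_ne (k := k) (s := i) (U := 2 ^ j) hi
    (Nat.pow_le_pow_right (by norm_num) (by omega)) ?_
  push_cast
  linear_combination -hij

theorem disj_one {k U : ℕ} (hk : 0 < k) (hU : Odd U) (hU1 : 1 < U) (hUk : U ≤ 2 ^ (k - 1)) :
    Disjoint (DU k 1) (DU k (U : ZMod (2 ^ k + 1))) := by
  rw [disjoint_left]
  intro x hx hx'
  rw [DU, mem_image] at hx hx'
  obtain ⟨i, hi, rfl⟩ := hx
  obtain ⟨j, hj, hij⟩ := hx'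
  rw [mem_range] at hi hj
  rcases Nat.lt_or_ge i j with h | h
  · refine two_pow_add_ne (k := k) (s := k - j + i) (U := U) (by omega) hUk ?_
    have h1 : (2 : ZMod (2 ^ k + 1)) ^ k = 2 ^ (k - j) * 2 ^ j := by
      rw [← pow_add]; congr 1; omega
    have h2 := two_pow_k k
    rw [h1] at h2
    rw [pow_add]
    linear_combination (-(2 : ZMod (2 ^ k + 1)) ^ (k - j)) * hij + (U : ZMod (2 ^ k + 1)) * h2
  · refine two_pow_ne (k := k) (s := i - j) (U := U) (by omega) hU hU1 hUk ?_
    have h1 : (2 : ZMod (2 ^ k + 1)) ^ i = 2 ^ (i - j) * 2 ^ j := by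
      rw [← pow_add]; congr 1; omega
    rw [h1] at hij
    apply ((two_unit hk).pow j).mul_right_cancel
    linear_combination -hij

theorem disj_negone {k U : ℕ} (hk : 0 < k) (hU : Odd U) (hU1 : 1 < U) (hUk : U ≤ 2 ^ (k - 1)) :
    Disjoint (DU k (-1)) (DU k (U : ZMod (2 ^ k + 1))) := by
  rw [disjoint_left]
  intro x hx hx'
  rw [DU, mem_image] at hx hx'
  obtain ⟨i, hi, rfl⟩ := hx
  obtain ⟨j, hj, hij⟩ := hx'
  rw [mem_range] at hi hj
  rcases Nat.lt_or_ge i j with h | h
  · refine two_pow_ne (k := k) (s := k - j + i) (U := U) (by omega) hU hU1 hUk ?_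
    have h1 : (2 : ZMod (2 ^ k + 1)) ^ k = 2 ^ (k - j) * 2 ^ j := by
      rw [← pow_add]; congr 1; omega
    have h2 := two_pow_k k
    rw [h1] at h2
    rw [pow_add]
    linear_combination ((2 : ZMod (2 ^ k + 1)) ^ (k - j)) * hij - (U : ZMod (2 ^ k + 1)) * h2
  · refine two_pow_add_ne (k := k) (s := i - j) (U := U) (by omega) hUk ?_
    have h1 : (2 : ZMod (2 ^ k + 1)) ^ i = 2 ^ (i - j) * 2 ^ j := by
      rw [← pow_add]; congr 1; omega
    rw [h1] at hij
    have h2 : (2 ^ (i - j) + (U : ZMod (2 ^ k + 1))) * 2 ^ j = 0 := by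
      linear_combination hij
    exact (((two_unit hk).pow j).mul_left_eq_zero).1 h2

/-- three pairwise disjoint dissociated sets of size `k` -/
theorem exists_three {k : ℕ} (hk : 4 ≤ k) : ∃ D : Fin 3 → Finset (ZMod (2 ^ k + 1)),
    (∀ i, Dissociated (D i) ∧ (D i).card = k) ∧ ∀ i j, i ≠ j → Disjoint (D i) (D j) := by
  obtain ⟨U, hUodd, hU1, hU5, hcop⟩ : ∃ U : ℕ, Odd U ∧ 1 < U ∧ U ≤ 5 ∧
      Nat.Coprime U (2 ^ k + 1) := by
    rcases Nat.even_or_odd k with ⟨r, hr⟩ | ⟨r, hr⟩
    · refine ⟨3, by decide, by norm_num, by norm_num, ?_⟩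
      rw [Nat.Prime.coprime_iff_not_dvd Nat.prime_three]
      intro h
      have h1 : (2 ^ k + 1) % 3 = 0 := Nat.mod_eq_zero_of_dvd h
      rw [hr, ← two_mul, pow_mul, Nat.add_mod, Nat.pow_mod] at h1
      norm_num at h1
    · refine ⟨5, by decide, by norm_num, by norm_num, ?_⟩
      rw [Nat.Prime.coprime_iff_not_dvd (by norm_num : Nat.Prime 5)]
      intro h
      have h1 : (2 ^ k + 1) % 5 = 0 := Nat.mod_eq_zero_of_dvd h
      have h4 : ∀ r : ℕ, 4 ^ r % 5 = 1 ∨ 4 ^ r % 5 = 4 := by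
        intro r
        induction r with
        | zero => left; rfl
        | succ r ih => rw [pow_succ]; omega
      rw [hr, pow_succ, pow_mul] at h1
      norm_num at h1
      have := h4 r
      omega
  have hUk : U ≤ 2 ^ (k - 1) := by
    have : 2 ^ 3 ≤ 2 ^ (k - 1) := Nat.pow_le_pow_right (by norm_num) (by omega)
    omega
  have hunit : IsUnit (U : ZMod (2 ^ k + 1)) := (ZMod.isUnit_iff_coprime U (2 ^ k + 1)).2 hcop
  have h1 : IsUnit (1 : ZMod (2 ^ k + 1)) := isUnit_one
  have h2 : IsUnit (-1 : ZMod (2 ^ k + 1)) := isUnit_one.neg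
  refine ⟨![DU k 1, DU k (-1), DU k (U : ZMod (2 ^ k + 1))], ?_, ?_⟩
  · intro i
    fin_cases i
    · exact ⟨DU_dissociated h1, DU_card h1⟩
    · exact ⟨DU_dissociated h2, DU_card h2⟩
    · exact ⟨DU_dissociated hunit, DU_card hunit⟩
  · have d1 := disj_neg (k := k)
    have d2 := disj_one (k := k) (by omega) hUodd hU1 hUk
    have d3 := disj_negone (k := k) (by omega) hUodd hU1 hUk
    intro i j hij
    fin_cases i <;> fin_cases j
    · exact absurd rfl hij
    · exact d1
    · exact d2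
    · exact d1.symm
    · exact absurd rfl hij
    · exact d3
    · exact d2.symm
    · exact d3.symm
    · exact absurd rfl hij

/-- every subset of `ℤ_n` with `n - 2` elements has dimension `k` -/
theorem dimA_eq {k : ℕ} (hk : 4 ≤ k) (A : Finset (ZMod (2 ^ k + 1)))
    (hA : A.card = 2 ^ k - 1) : dimA A = k := by
  have hpos : 0 < 2 ^ k := by positivity
  haveI : NeZero (2 ^ k + 1) := ⟨by omega⟩
  have hle : ∀ B : Finset (ZMod (2 ^ k + 1)), Dissociated B → B.card ≤ k := by
    intro B hB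
    have h1 := hB.two_pow_le
    rw [ZMod.card] at h1
    by_contra hcon
    push Not at hcon
    have h2 : 2 ^ (k + 1) ≤ 2 ^ B.card := Nat.pow_le_pow_right (by norm_num) hcon
    rw [pow_succ] at h2
    have h3 : 2 ^ 4 ≤ 2 ^ k := Nat.pow_le_pow_right (by norm_num) hk
    omega
  obtain ⟨D, hD, hdisj⟩ := exists_three hk
  have hex : ∃ i, D i ⊆ A := by
    by_contra hcon
    push Not at hcon
    have h1 : ∀ i, ∃ x, x ∈ D i ∧ x ∉ A := by
      intro i
      have := hcon i
      rw [not_subset] at this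
      exact this
    choose f hf using h1
    have hinj : Function.Injective f := by
      intro i j hij
      by_contra hne
      have := disjoint_left.1 (hdisj i j hne) (hf i).1
      rw [hij] at this
      exact this (hf j).1
    have h2 : (univ.image f).card = 3 := by
      rw [card_image_of_injective _ hinj]; rfl
    have h3 : univ.image f ⊆ Aᶜ := by
      intro x hx
      rw [mem_image] at hx
      obtain ⟨i, _, rfl⟩ := hx
      rw [mem_compl]
      exact (hf i).2
    have h4 := card_le_card h3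
    rw [card_compl, ZMod.card, hA, h2] at h4
    omega
  obtain ⟨i, hi⟩ := hex
  unfold dimA
  apply le_antisymm
  · apply csSup_le
    · exact ⟨k, D i, hi, (hD i).1, (hD i).2⟩
    · rintro b ⟨B, _, hB, rfl⟩
      exact hle B hB
  · apply le_csSup
    · refine ⟨k, ?_⟩
      rintro b ⟨B, _, hB, rfl⟩
      exact hle B hB
    · exact ⟨D i, hi, (hD i).1, (hD i).2⟩

/-- **Theorem.** For every `k ≥ 4` the group `ℤ_n` with `n = 2 ^ k + 1` has
`dim(ℤ_n, n - 2) = k ≠ k - 1 = ⌊log₂ (n - 2)⌋`.  (So `dim(ℤ_n, m) = ⌊log₂ m⌋` fails for infinitely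
many `n`.) -/
theorem result (k : ℕ) (hk : 4 ≤ k) :
    dim (ZMod (2 ^ k + 1)) (2 ^ k - 1) = k ∧ Nat.log 2 (2 ^ k - 1) = k - 1 := by
  have hpos : 0 < 2 ^ k := by positivity
  haveI : NeZero (2 ^ k + 1) := ⟨by omega⟩
  constructor
  · obtain ⟨A, _, hA⟩ : ∃ A ⊆ (univ : Finset (ZMod (2 ^ k + 1))), A.card = 2 ^ k - 1 :=
      exists_subset_card_eq (by rw [card_univ, ZMod.card]; omega)
    have hset : {b | ∃ A : Finset (ZMod (2 ^ k + 1)), A.card = 2 ^ k - 1 ∧ dimA A = b} = {k} := by
      ext b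
      simp only [Set.mem_ofPred_eq, Set.mem_singleton_iff]
      constructor
      · rintro ⟨A, hA, rfl⟩
        exact dimA_eq hk A hA
      · rintro rfl
        exact ⟨A, hA, dimA_eq hk A hA⟩
    unfold dim
    rw [hset]
    exact csInf_singleton k
  · have h1 : 2 ^ k = 2 * 2 ^ (k - 1) := by rw [← pow_succ']; congr 1; omega
    have h2 : 0 < 2 ^ (k - 1) := by positivity
    rw [Nat.log_eq_iff (by left; omega)]
    refine ⟨by omega, ?_⟩
    rw [show k - 1 + 1 = k by omega]
    omega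

end Pool.Agent.Results.MP_6c00f2_co.CyclicFails
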